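import Pool.Agent.Y961.SK.Pw

/-! The growth of the mode `n + 1` and the lower bound of the mode `n` during a stage (skew system of
order 2): the statement `S_RAT`. -/

open Set Filter Topology MeasureTheory

set_option autoImplicit false

namespace Pool.Agent.Y961.SK

open Pool.Agent.Y5 Pool.Agent.Y8.SK
open Pool.Agent.Y6.S (Pe6)
open Pool.Agent.Y8.EP (EE EE_pos dd Pp Pn zz th bb nb Cur Low Ub GrowE)
open Pool.Agent.Y5.E (At Aw Ut Uw loc)
open Pool.Agent.Y5.F (vfk Yk Wk)

lemma main_ineq {X0 X Z c b a : ℝ} (h99 : 99 / 100 ≤ X0) (hX : X0 ≤ X)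
    (hX2 : X ≤ 3 / 2) (hc : 0 < c) (hZ : -(c / 4) < Z) (hb : 999 / 1000 ≤ b)
    (hb2 : b ≤ 1001 / 1000) (ha : 8999 / 10000 ≤ a) (ha2 : a ≤ 9001 / 10000) :
    (999 / 1000 * X0 - 9001 / 10000) * (Z + c) ≤ c * X ^ 2 + Z * (b * X - a) := by
  have hX0 : 0 ≤ X := by linarith
  have hXsq : X0 - 1 / 4 ≤ X ^ 2 := by nlinarith [sq_nonneg (X - 1 / 2)]
  have hcX : c * (X0 - 1 / 4) ≤ c * X ^ 2 := mul_le_mul_of_nonneg_left hXsq hc.le
  have hcX0 : 0 ≤ c * X0 := mul_nonneg hc.le (by linarith)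
  rcases le_total 0 Z with h | h
  · have e1 : 0 ≤ Z * ((b - 999 / 1000) * X + 999 / 1000 * (X - X0) + (9001 / 10000 - a)) := by
      apply mul_nonneg h
      have : 0 ≤ (b - 999 / 1000) * X := mul_nonneg (by linarith) hX0
      linarith
    have e2 : Z * ((b - 999 / 1000) * X + 999 / 1000 * (X - X0) + (9001 / 10000 - a))
        = Z * (b * X - a) - (999 / 1000 * X0 - 9001 / 10000) * Z := by ring
    have e3 : (999 / 1000 * X0 - 9001 / 10000) * (Z + c)
        = (999 / 1000 * X0 - 9001 / 10000) * Z + (999 / 1000 * (c * X0) - 9001 / 10000 * c) := by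
      ring
    rw [e3]
    linarith
  · have e1 : (999 / 1000 * X0 - 9001 / 10000) * (Z + c)
        ≤ (999 / 1000 * X0 - 9001 / 10000) * c := by
      apply mul_le_mul_of_nonneg_left <;> linarith
    have h3 : b * X - a ≤ 6017 / 10000 := by
      have : b * X ≤ 1001 / 1000 * (3 / 2) := by gcongr
      linarith
    have h4 : 0 ≤ b * X - a := by
      have : 999 / 1000 * (99 / 100) ≤ b * X := by gcongr; linarith
      linarith
    have e3 : -(6017 / 10000 * (c / 4)) ≤ Z * (b * X - a) := by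
      have : -Z * (b * X - a) ≤ (c / 4) * (6017 / 10000) := by
        gcongr
        linarith
      linarith
    linarith

section st

variable {κ lam N Q η : ℝ} {L C ℓ : ℕ → ℝ} {B : ℕ → ℕ → ℝ} {T : ℝ} {x w f : ℕ → ℝ → ℝ}
variable {n : ℕ} {σ : ℕ → ℝ} {t1 t : ℝ}

lemma U_small (q : Pe6 κ lam N L C ℓ B) {m : ℕ} {t : ℝ} (h : Low lam L x w m t) :
    Ut L x m t ≤ 2 / 10 ^ 30 * L m := by
  have hl := q.lamp
  have hlb := q.lam_big
  have hL := q.Lp m
  refine h.U.trans ?_
  calc 1501 / 1000 * (L m / lam) = 1501 / 1000 * (1 / lam) * L m := by ring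
    _ ≤ 1501 / 1000 * (1 / 10 ^ 30) * L m := by gcongr
    _ ≤ _ := by gcongr ?_ * _; norm_num

lemma ℓ_small (q : Pe6 κ lam N L C ℓ B) (m : ℕ) : ℓ m ≤ 1 / 10 ^ 30 * L m := by
  have h := q.ℓ_lam m
  have hlb := q.lam_big
  have h0 := q.ℓ_nonneg m
  have hL := q.Lp m
  have h1 : ℓ m * 10 ^ 30 ≤ ℓ m * lam := by gcongr
  linarith

/-- lower bound for the growth of the next mode -/
lemma Zder (g : Gd κ lam N Q η L C ℓ B T x w f) (p : Pw κ lam L C T x w n t) {X0 : ℝ}
    (h99 : 99 / 100 ≤ X0) (hX0 : X0 ≤ x n t) :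
    (999 / 1000 * X0 - 9001 / 10000 - 1 / 10 ^ 7) * (L n * zz C x n t)
      ≤ vfk κ L C ℓ B (fun k => x k t) (n + 1) + f (n + 1) t := by
  have q := g.q
  have hL := q.Lp n
  have hL1 := q.Lp (n + 1)
  have hC := q.Cp n
  have hC1 := q.Cp (n + 1)
  have hl := q.lamp
  have hlb := q.lam_big
  have hZ := p.Zz
  have hz0 := p.z0
  have hez : zz C x n t = x (n + 1) t + C n := rfl
  have hL0 : L n ≠ 0 := hL.ne'
  obtain ⟨a, ha⟩ : ∃ a, ℓ (n + 1) = a * L n := ⟨ℓ (n + 1) / L n, by field_simp⟩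
  have ha1 : 8999 / 10000 ≤ a := by
    have h1 := q.ℓs_lo n
    rw [ha] at h1
    exact le_of_mul_le_mul_right h1 hL
  have ha2 : a ≤ 9001 / 10000 := by
    have h1 := q.ℓs_hi n
    rw [ha] at h1
    exact le_of_mul_le_mul_right h1 hL
  have hmain := main_ineq h99 hX0 p.X2 hC p.Zlo (q.B_lo n (n + 1) (by omega))
    (q.B_hi n (n + 1) (by omega)) ha1 ha2
  rw [← hez] at hmain
  set z := zz C x n t with hzd
  set X := x n t with hXd
  set Z := x (n + 1) t with hZd
  have hP : 0 < L n * z := by positivity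
  have hZ0 := abs_nonneg Z
  -- strain
  have h3 := Gd.strain (x := x) q (show n ≤ n + 1 by omega) t
  set S := ∑ i ∈ Finset.range n, L i * B i (n + 1) * x i t with hS
  have hS1 : |S| ≤ 1 / 10 ^ 20 * L n := by
    refine h3.trans ?_
    have := U_small q p.low
    linarith
  have hZS : -(1 / 10 ^ 20 * (L n * z)) ≤ Z * S := by
    have : |Z * S| ≤ z * (1 / 10 ^ 20 * L n) := by
      rw [abs_mul]; gcongr
    have h5 := neg_le_of_abs_le this
    linarith
  -- the other terms
  obtain ⟨_, _, h4, h5⟩ := g.vf_terms p.mem (n + 1)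
  have h6 : L (n + 1) * ∑' k : ℕ, B (n + 1) (n + 1 + 1 + k)
        * (κ ^ (2 * (k + 1)) * x (n + 1 + 1 + k) t ^ 2)
      ≤ 1 / 10 ^ 10 * (L n * z) := by
    refine h4.trans ?_
    have hY : κ ^ 2 * Yk κ x w (n + 1 + 1) t ≤ 8 * (Real.exp (-(8 / 1000) * lam) * z) := by
      refine (mul_le_of_le_one_left (g.Y_nonneg _ _) q.κsq).trans p.Y2'
    have he := lam_exp8 q
    rw [q.L_succ n]
    calc 1001 / 1000 * (lam * L n) * (κ ^ 2 * Yk κ x w (n + 1 + 1) t)
        ≤ 1001 / 1000 * (lam * L n) * (8 * (Real.exp (-(8 / 1000) * lam) * z)) := by gcongr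
      _ = 8008 / 1000 / 10 ^ 30 * (10 ^ 30 * (lam * Real.exp (-(8 / 1000) * lam)))
          * (L n * z) := by ring
      _ ≤ 8008 / 1000 / 10 ^ 30 * (1 / 10 ^ 20) * (L n * z) := by gcongr
      _ ≤ _ := by gcongr ?_ * _; norm_num
  have h7 : κ ^ 2 * (L (n + 1) * C (n + 1) * Z * x (n + 1 + 1) t)
      ≤ 1 / 10 ^ 10 * (L n * z) := by
    refine (le_abs_self _).trans (h5.trans ?_)
    have h8 : |x (n + 1 + 1) t| ≤ 1 := (g.x_le p.mem (n + 2)).trans p.Y2
    have h9 := C_lam q (n + 1)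
    rw [q.L_succ n]
    calc C (n + 1) * (lam * L n) * |x (n + 1 + 1) t| * |Z|
        ≤ C (n + 1) * (lam * L n) * 1 * z := by gcongr
      _ = (C (n + 1) * lam) * (L n * z) := by ring
      _ ≤ 1 / 10 ^ 20 * (L n * z) := by gcongr
      _ ≤ _ := by gcongr ?_ * _; norm_num
  have h8 := neg_le_of_abs_le (f1 g p)
  rw [← hzd] at h8
  have hvf : vfk κ L C ℓ B (fun k => x k t) (n + 1) = L n * (C n * X ^ 2
      + Z * (B n (n + 1) * X - a)) + Z * S
      - κ ^ 2 * (L (n + 1) * C (n + 1) * Z * x (n + 1 + 1) t)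
      - L (n + 1) * ∑' k : ℕ, B (n + 1) (n + 1 + 1 + k)
          * (κ ^ (2 * (k + 1)) * x (n + 1 + 1 + k) t ^ 2) := by
    have hn1 : ¬ (n + 1 = 0) := Nat.succ_ne_zero n
    unfold vfk
    rw [if_neg hn1, Finset.sum_range_succ, ha]
    have e5 : n + 1 - 1 = n := by omega
    rw [e5]
    ring
  rw [hvf]
  have h9 := mul_le_mul_of_nonneg_left hmain hL.le
  have e9 : L n * ((999 / 1000 * X0 - 9001 / 10000) * z)
      = (999 / 1000 * X0 - 9001 / 10000) * (L n * z) := by
    ring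
  rw [e9] at h9
  have e10 : (999 / 1000 * X0 - 9001 / 10000 - 1 / 10 ^ 7) * (L n * z)
      = (999 / 1000 * X0 - 9001 / 10000) * (L n * z) - 1 / 10 ^ 7 * (L n * z) := by ring
  rw [e10]
  linarith

/-- the force on the previous mode -/
lemma fp (g : Gd κ lam N Q η L C ℓ B T x w f) {m : ℕ} (h : Stg κ lam η L T x w (m + 1) σ)
    (ub : Ub κ lam L x w (m + 1) σ t1) (ht : t ∈ Ico (σ (m + 1)) t1)
    (p : Pw κ lam L C T x w (m + 1) t) :
    |f m t| ≤ 1 / 10 ^ 10 * L m := by
  have q := g.q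
  have hf := g.sy.fb m t p.mem
  have hL := q.Lp m
  have hd := dd_pos lam
  have hl := q.lamp
  have hl1 := q.lam1
  have hN := q.N_one
  have hmt : t ∈ Ico (σ m) t1 := ⟨(h.σlt m (by omega)).le.trans ht.1, ht.2⟩
  have hlow := ub.low m (by omega) t hmt
  have hYm := ub.Y m (by omega) t hmt
  have hwm := ub.w m (by omega) t hmt
  have hYn := p.Yn
  have hA0 := g.A_nonneg p.mem m
  have hAw0 := g.Aw_nonneg p.mem m
  have hU0 := g.Uw_nonneg p.mem m
  have hGl : L m / lam ≤ L m := div_le_self (by positivity) hl1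
  have hW : √(Wk κ w m t) ≤ 6 * dd lam := by
    have h1 : √(Wk κ w m t) ≤ w m t + √(Wk κ w (m + 1) t) := sqrtW_succ g p.mem m
    have h2 : √(Wk κ w (m + 1) t) ≤ w (m + 1) t + √(Wk κ w (m + 1 + 1) t) :=
      sqrtW_succ g p.mem (m + 1)
    have := p.wn
    have := p.W1
    linarith
  have s1 : L m * (1 + At lam x w m t + √(Yk κ x w m t)) * √(Wk κ w m t)
      ≤ 25 * (dd lam * L m) := by
    calc L m * (1 + At lam x w m t + √(Yk κ x w m t)) * √(Wk κ w m t)
        ≤ L m * (1 + 1501 / 1000 + 3 / 2) * (6 * dd lam) := by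
          have := hlow.A
          gcongr
      _ = (4001 / 1000 * 6) * (dd lam * L m) := by ring
      _ ≤ _ := by gcongr; norm_num
  have s2 : Uw L w m t * √(Yk κ x w m t) ≤ 3 * (dd lam * L m) := by
    calc Uw L w m t * √(Yk κ x w m t) ≤ (2 * dd lam * L m) * (3 / 2) := by
          have h1 := hlow.Uw
          have h2 : 2 * dd lam * (L m / lam) ≤ 2 * dd lam * L m := by
            gcongr
          have h3 := h1.trans h2
          gcongr
      _ = _ := by ring
  have s3 : L m * Aw lam w m t * √(Yk κ x w (m + 1) t) ≤ 3 * (dd lam * L m) := by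
    calc L m * Aw lam w m t * √(Yk κ x w (m + 1) t) ≤ L m * (2 * dd lam) * (3 / 2) := by
          have := hlow.Aw
          gcongr
      _ = _ := by ring
  have s4 : loc L x w m t ≤ 20 * (dd lam * L m) := by
    calc loc L x w m t ≤ 20 * dd lam * (L m / lam) := hlow.lc
      _ ≤ 20 * dd lam * L m := by gcongr
      _ = _ := by ring
  have hsm := Ndd q m
  have hCs := q.C_small m
  have hsm2 : 10 ^ 20 * (N * (lam * dd lam)) ≤ 1 := by linarith
  calc |f m t| ≤ N * (25 * (dd lam * L m) + 3 * (dd lam * L m)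
        + 3 * (dd lam * L m) + 20 * (dd lam * L m)) := by
        refine hf.trans ?_
        gcongr
    _ = 51 * (N * (1 * dd lam * L m)) := by ring
    _ ≤ 51 * (N * (lam * dd lam * L m)) := by gcongr
    _ = 51 / 10 ^ 20 * (10 ^ 20 * (N * (lam * dd lam))) * L m := by ring
    _ ≤ 51 / 10 ^ 20 * 1 * L m := by gcongr
    _ ≤ _ := by gcongr ?_ * _; norm_num

/-- lower bound of the previous mode -/
lemma prev_ge (g : Gd κ lam N Q η L C ℓ B T x w f) {m : ℕ} (h : Stg κ lam η L T x w (m + 1) σ)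
    (hc : Cur κ lam L T x w (m + 1) σ t1) (ub : Ub κ lam L x w (m + 1) σ t1) (htt : t ≤ t1)
    (hP : ∀ τ ∈ Ico (σ (m + 1)) t, Pw κ lam L C T x w (m + 1) τ) :
    ∀ τ ∈ Ico (σ (m + 1)) t, 95 / 100 ≤ x m τ := by
  have q := g.q
  have hlm := q.lamp
  have hL := q.Lp m
  have hC := q.Cp m
  have hCs := q.C_small m
  have hℓ := ℓ_small q m
  have hκ := q.κsq_s
  intro τ hτ
  set R := 3 / 10 ^ 6 * L m with hR
  have hα0 : 0 ≤ σ (m + 1) := σnn h _ le_rfl
  have h1 := mono_of (f := fun s => x m s + R * s)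
    (f' := fun s => (vfk κ L C ℓ B (fun k => x k s) m + f m s) + R) hτ.1
    (((g.cont m).mono fun s hs => ⟨hα0.trans hs.1, hs.2.trans_lt
      (hτ.2.trans_le (htt.trans hc.leT))⟩).add (by fun_prop))
    (fun s hs => by
      have := (g.derivAt m (t := s) ⟨hα0.trans_lt hs.1, hs.2.trans
        (hτ.2.trans_le (htt.trans hc.leT))⟩).fun_add ((hasDerivAt_id s).const_mul R)
      simpa using this)
    (fun s hs => by
      have hs0 : s ∈ Ico (σ (m + 1)) t := ⟨hs.1.le, hs.2.trans hτ.2⟩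
      have hs1 : s ∈ Ico (σ (m + 1)) t1 := ⟨hs.1.le, hs0.2.trans_le htt⟩
      have hsm : s ∈ Ico (σ m) t1 := ⟨(h.σlt m (by omega)).le.trans hs1.1, hs1.2⟩
      have hsI := memI h hc hs1
      have p := hP s hs0
      have h2 := g.vf_ge hsI m
      have h3 : |x m s| ≤ 3 / 2 := (g.x_le hsI _).trans (ub.Y m (by omega) s hsm)
      have h4 : |x (m + 1) s| ≤ 3 / 2 := (g.x_le hsI _).trans p.Yn
      have h6 : Yk κ x w (m + 1) s ≤ 9 / 4 := by
        calc Yk κ x w (m + 1) s = √(Yk κ x w (m + 1) s) ^ 2 := (Real.sq_sqrt (g.Y_nonneg _ _)).symm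
          _ ≤ (3 / 2) ^ 2 := by have := p.Yn; gcongr
          _ = _ := by norm_num
      have h7 := U_small q (ub.low m (by omega) s hsm)
      have h8 : C m * L m * |x (m + 1) s| ≤ 2 / 10 ^ 20 * L m := by
        calc C m * L m * |x (m + 1) s| ≤ 1 / 10 ^ 20 * L m * (3 / 2) := by gcongr
          _ = (3 / 2 / 10 ^ 20) * L m := by ring
          _ ≤ _ := by gcongr ?_ * _; norm_num
      have h9 : (ℓ m + C m * L m * |x (m + 1) s|
          + 1001 / 1000 * Ut L x m s) * |x m s| ≤ (1 / 10 ^ 10 * L m) * (3 / 2) := by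
        have := Gd.U_nonneg (x := x) q m s
        have := q.ℓ_nonneg m
        gcongr
        linarith
      have h10 : 1001 / 1000 * L m * (κ ^ 2 * Yk κ x w (m + 1) s) ≤ 25 / 10 ^ 7 * L m := by
        have h0 := g.Y_nonneg (m + 1) s
        calc 1001 / 1000 * L m * (κ ^ 2 * Yk κ x w (m + 1) s)
            ≤ 1001 / 1000 * L m * (1 / 10 ^ 6 * (9 / 4)) := by gcongr
          _ = (1001 / 1000 * (1 / 10 ^ 6 * (9 / 4))) * L m := by ring
          _ ≤ _ := by gcongr; norm_num
      have h11 := Gd.src_nonneg (x := x) q m s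
      have h13 := fp g h ub hs1 p
      rw [hR]
      linarith)
  have hel : (τ - σ (m + 1)) * L m ≤ 62 / 100 := by
    have h2 := hc.le
    have h3 : τ - σ (m + 1) ≤ 62 / 100 * lam / L (m + 1) := by
      have := hτ.2
      linarith
    rw [q.L_succ m] at h3
    have e : 62 / 100 * lam / (lam * L m) = 62 / 100 / L m := by field_simp
    rw [e, le_div_iff₀ hL] at h3
    exact h3
  have h2 : R * τ - R * σ (m + 1) = 3 / 10 ^ 6 * ((τ - σ (m + 1)) * L m) := by
    rw [hR]; ring
  have h3 := h.prev (Nat.succ_ne_zero m)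
  rw [Nat.add_sub_cancel] at h3
  linarith

/-- the strain of the mode `n` beats the damping -/
lemma strain_ge (g : Gd κ lam N Q η L C ℓ B T x w f) {m : ℕ}
    (h : Stg κ lam η L T x w (m + 1) σ)
    (hc : Cur κ lam L T x w (m + 1) σ t1) (ub : Ub κ lam L x w (m + 1) σ t1) (htt : t ≤ t1)
    (hP : ∀ τ ∈ Ico (σ (m + 1)) t, Pw κ lam L C T x w (m + 1) τ) {τ : ℝ}
    (hτ : τ ∈ Ico (σ (m + 1)) t) :
    0 ≤ -(ℓ (m + 1) * x (m + 1) τ)
      + x (m + 1) τ * ∑ i ∈ Finset.range (m + 1), L i * B i (m + 1) * x i τ := by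
  have q := g.q
  have p := hP τ hτ
  have hX1 := p.X1
  have hX2 := p.X2
  rw [Finset.sum_range_succ]
  have h1 := prev_ge g h hc ub htt hP τ hτ
  have hmt : τ ∈ Ico (σ m) t1 := ⟨(h.σlt m (by omega)).le.trans hτ.1, hτ.2.trans_le htt⟩
  have h2 := U_small q (ub.low m (by omega) τ hmt)
  have h3 := (abs_le.1 (Gd.strain (x := x) g.q (m := m) (k := m + 1) (by omega) τ)).1
  have hB := g.q.B_lo m (m + 1) (by omega)
  have hL := g.q.Lp m
  have hℓ := q.ℓs_hi m
  have h4 : L m * (999 / 1000) * (95 / 100) ≤ L m * B m (m + 1) * x m τ := by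
    gcongr
  have h5 : 0 ≤ (∑ i ∈ Finset.range m, L i * B i (m + 1) * x i τ
      + L m * B m (m + 1) * x m τ) - ℓ (m + 1) := by
    linarith
  have h6 := mul_nonneg (by linarith : 0 ≤ x (m + 1) τ) h5
  linarith

/-- lower bound for the growth of the current mode -/
lemma Xlo (g : Gd κ lam N Q η L C ℓ B T x w f) (p : Pw κ lam L C T x w n t) :
    -(ℓ n * x n t) + x n t * ∑ i ∈ Finset.range n, L i * B i n * x i t
        - 11 / 10 ^ 7 * (L n * zz C x n t)
      ≤ vfk κ L C ℓ B (fun k => x k t) n + f n t := by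
  have q := g.q
  have hL := q.Lp n
  have hl1 := q.lam1
  have hd := dd_pos lam
  have hds := dd_small q
  have hN := q.N_one
  have hz0 := p.z0
  have hz1 := p.z1
  have hC := q.Cp n
  have hCs := q.C_small n
  have hκ := q.κsq_s
  have hκ0 := q.κk0 2
  obtain ⟨_, _, h3, h4⟩ := g.vf_terms p.mem n
  have h5 := neg_abs_le (f n t)
  have h5' := f0 g p
  have hP : 0 < L n * zz C x n t := by positivity
  have h6 : κ ^ 2 * (L n * C n * x n t * x (n + 1) t) ≤ 1 / 10 ^ 10 * (L n * zz C x n t) := by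
    refine (le_abs_self _).trans (h4.trans ?_)
    have h7 : |x n t| ≤ 3 / 2 := (g.x_le p.mem n).trans p.Yn
    have h8 := p.Zz
    calc C n * L n * |x (n + 1) t| * |x n t| ≤ 1 / 10 ^ 20 * L n * zz C x n t * (3 / 2) := by
          gcongr
      _ = (3 / 2 / 10 ^ 20) * (L n * zz C x n t) := by ring
      _ ≤ _ := by gcongr ?_ * _; norm_num
  have h7 := Gd.src_nonneg (x := x) q n t
  -- the energy of the tail
  have hsq : x (n + 1) t ^ 2 ≤ zz C x n t := by
    have h8 := p.Zz
    have h9 := p.Z1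
    have h10 := abs_nonneg (x (n + 1) t)
    rw [← sq_abs, sq]
    calc |x (n + 1) t| * |x (n + 1) t| ≤ 1 * zz C x n t := by gcongr
      _ = _ := one_mul _
  have hw : w (n + 1) t ^ 2 ≤ 1 / 10 ^ 10 * zz C x n t := by
    have h8 := p.w1
    have h9 := g.sy.w0 (n + 1) t p.mem
    have h10 := Ndd q n
    have h11 : dd lam ≤ N * (lam * dd lam) := by
      calc dd lam = 1 * (1 * dd lam) := by ring
        _ ≤ _ := by gcongr
    have h12 : dd lam ≤ 1 / 10 ^ 20 * zz C x n t := by linarith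
    calc w (n + 1) t ^ 2 ≤ (4 * dd lam) ^ 2 := by gcongr
      _ = 16 * (dd lam * dd lam) := by ring
      _ ≤ 16 * (1 / 10 ^ 20 * (1 / 10 ^ 20 * zz C x n t)) := by gcongr
      _ = (16 / 10 ^ 40) * zz C x n t := by ring
      _ ≤ _ := by gcongr ?_ * _; norm_num
  have hY2 : κ ^ 2 * Yk κ x w (n + 1 + 1) t ≤ 1 / 10 ^ 10 * zz C x n t := by
    have h8 : Real.exp (-(8 / 1000) * lam) ≤ 1 / 10 ^ 20 := q.exp_small (by norm_num)
    calc κ ^ 2 * Yk κ x w (n + 1 + 1) t ≤ 1 * (8 * (Real.exp (-(8 / 1000) * lam) * zz C x n t)) := by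
          have := p.Y2'
          have := q.κsq
          have := g.Y_nonneg (n + 2) t
          gcongr
      _ ≤ 1 * (8 * (1 / 10 ^ 20 * zz C x n t)) := by gcongr
      _ = (8 / 10 ^ 20) * zz C x n t := by ring
      _ ≤ _ := by gcongr ?_ * _; norm_num
  have hY1 : Yk κ x w (n + 1) t ≤ 1001 / 1000 * zz C x n t := by
    rw [g.Y_succ p.mem (n + 1)]
    linarith
  have h8 : L n * ∑' k : ℕ, B n (n + 1 + k) * (κ ^ (2 * (k + 1)) * x (n + 1 + k) t ^ 2)
      ≤ 105 / 10 ^ 8 * (L n * zz C x n t) := by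
    refine h3.trans ?_
    have := g.Y_nonneg (n + 1) t
    calc 1001 / 1000 * L n * (κ ^ 2 * Yk κ x w (n + 1) t)
        ≤ 1001 / 1000 * L n * (1 / 10 ^ 6 * (1001 / 1000 * zz C x n t)) := by gcongr
      _ = (1001 / 1000 * (1 / 10 ^ 6) * (1001 / 1000)) * (L n * zz C x n t) := by ring
      _ ≤ _ := by gcongr ?_ * _; norm_num
  unfold Gd.src at h7
  unfold vfk
  simp only
  linarith

end st

/-- The growth of the mode `n+1` and the lower bound of the mode `n` during a stage. -/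
theorem t_RAT : S_RAT := by
  intro κ lam N Q η L C ℓ B T x w f n σ t1 t g h hc ub ht hy
  have q := g.q
  have hlm := q.lamp
  have hlmb := q.lam_big
  have hC := q.Cp n
  have hCs := q.C_small n
  have h0 : 0 ≤ σ n := σnn h n le_rfl
  have hL := q.Lp n
  have htT : t < T := ht.2.trans_le hc.leT
  -- pointwise facts
  have hpw : ∀ τ ∈ Ico (σ n) t, Pw κ lam L C T x w n τ := fun τ hτ =>
    pw g h hc ub ⟨hτ.1, hτ.2.trans ht.2⟩ (hy τ hτ)
  have hsub : Icc (σ n) t ⊆ Ico 0 T := fun τ hτ => ⟨h0.trans hτ.1, hτ.2.trans_lt htT⟩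
  set z' : ℝ → ℝ := fun τ => vfk κ L C ℓ B (fun k => x k τ) (n + 1) + f (n + 1) τ with hz'
  have hzc : ContinuousOn (zz C x n) (Icc (σ n) t) :=
    ((g.cont (n + 1)).mono hsub).add continuousOn_const
  have hzd : ∀ τ ∈ Ioo (σ n) t, HasDerivAt (zz C x n) (z' τ) τ := fun τ hτ => by
    have hτT : τ ∈ Ioo 0 T := ⟨h0.trans_lt hτ.1, hτ.2.trans htT⟩
    exact (g.derivAt (n + 1) hτT).add_const (C n)
  have h88 : ∀ τ ∈ Ioo (σ n) t, 88 / 1000 * (L n * zz C x n τ) ≤ z' τ := fun τ hτ => by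
    have p := hpw τ ⟨hτ.1.le, hτ.2⟩
    refine le_trans ?_ (Zder g p (X0 := 99 / 100) le_rfl p.X1.le)
    have := mul_pos hL p.z0
    gcongr
    norm_num
  have hz'0 : ∀ τ ∈ Ioo (σ n) t, 0 ≤ z' τ := fun τ hτ => by
    refine le_trans ?_ (h88 τ hτ)
    have p := hpw τ ⟨hτ.1.le, hτ.2⟩
    have := mul_pos hL p.z0
    positivity
  have hmonoAll : ∀ τ ∈ Icc (σ n) t, zz C x n (σ n) ≤ zz C x n τ := fun τ hτ =>
    mono_of hτ.1 (hzc.mono (Icc_subset_Icc_right hτ.2))
      (fun s hs => hzd s ⟨hs.1, hs.2.trans_le hτ.2⟩)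
      (fun s hs => hz'0 s ⟨hs.1, hs.2.trans_le hτ.2⟩)
  have hz0 : 7 / 8 * C n ≤ zz C x n (σ n) := by
    have h1 := h.ng 0
    have e : Pn 0 = 603 / 10000 := by simp [Pn]
    rw [e, add_zero] at h1
    have h2 : Real.exp (-(603 / 10000) * lam) ≤ C n / 8 := by
      have h3 : Real.exp (-(603 / 10000) * lam)
          = Real.exp (-(2 / 10000) * lam) * Real.exp (-(601 / 10000) * lam) := by
        rw [← Real.exp_add]; congr 1; ring
      have h4 : Real.exp (-(2 / 10000) * lam) ≤ 1 / 10 ^ 20 := q.exp_small (by norm_num)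
      rw [h3]
      calc Real.exp (-(2 / 10000) * lam) * Real.exp (-(601 / 10000) * lam)
          ≤ 1 / 10 ^ 20 * C n := by
            have := q.C_lo n
            gcongr
        _ ≤ _ := by linarith
    unfold zz
    linarith
  have hz78 : ∀ τ ∈ Icc (σ n) t, 7 / 8 * C n ≤ zz C x n τ := fun τ hτ =>
    hz0.trans (hmonoAll τ hτ)
  have hzhi : ∀ τ ∈ Icc (σ n) t, zz C x n τ ≤ 1 + C n := fun τ hτ =>
    (act' g h hc ⟨hτ.1, hτ.2.trans_lt ht.2⟩).2.2
  -- the duration, from a lower bound of the rate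
  have hdur : ∀ r b : ℝ, b ∈ Icc (σ n) t →
      (∀ τ ∈ Ioo (σ n) b, r * (L n * zz C x n τ) ≤ z' τ) →
      r * ((b - σ n) * L n) ≤ 601 / 10000 * lam + 2 := by
    intro r b hb hr
    have hmono := mono_of (f := fun τ => Real.log (zz C x n τ) - r * L n * τ)
      (f' := fun τ => z' τ / zz C x n τ - r * L n) hb.1
      (by
        refine ContinuousOn.sub (ContinuousOn.log (hzc.mono (Icc_subset_Icc_right hb.2)) ?_)
          (by fun_prop)
        intro τ hτ
        have := hz78 τ ⟨hτ.1, hτ.2.trans hb.2⟩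
        have h2 : 0 < zz C x n τ := by linarith
        exact h2.ne')
      (fun τ hτ => by
        have h1 := hz78 τ ⟨hτ.1.le, hτ.2.le.trans hb.2⟩
        have h2 : 0 < zz C x n τ := by linarith
        have h3 := (hzd τ ⟨hτ.1, hτ.2.trans_le hb.2⟩).log h2.ne'
        have h4 := h3.fun_sub ((hasDerivAt_id τ).const_mul (r * L n))
        simpa using h4)
      (fun τ hτ => by
        have h1 := hz78 τ ⟨hτ.1.le, hτ.2.le.trans hb.2⟩
        have h2 : 0 < zz C x n τ := by linarith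
        have h3 := hr τ hτ
        have h5 : r * L n ≤ z' τ / zz C x n τ := by
          rw [le_div_iff₀ h2]
          refine le_trans (le_of_eq ?_) h3
          ring
        linarith)
    have hlog1 : Real.log (zz C x n b) ≤ 1 := by
      have h1 := hzhi b hb
      have h2 := hz78 b hb
      have h3 := Real.log_le_sub_one_of_pos (show 0 < zz C x n b by linarith)
      linarith
    have hlog2 : -(601 / 10000) * lam - 1 ≤ Real.log (zz C x n (σ n)) := by
      rw [Real.le_log_iff_exp_le (by linarith)]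
      have h9 := q.C_lo n
      have h10 : Real.exp (-(601 / 10000) * lam - 1)
          = Real.exp (-(601 / 10000) * lam) * Real.exp (-1) := by
        rw [← Real.exp_add]; congr 1
      rw [h10]
      have h11 : Real.exp (-1) ≤ 7 / 8 := by
        have := Real.exp_neg_one_lt_d9; linarith
      calc Real.exp (-(601 / 10000) * lam) * Real.exp (-1) ≤ C n * (7 / 8) := by gcongr
        _ ≤ zz C x n (σ n) := by linarith
    have hmono' : Real.log (zz C x n (σ n)) - r * L n * σ n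
        ≤ Real.log (zz C x n b) - r * L n * b := hmono
    have e : r * ((b - σ n) * L n) = r * L n * b - r * L n * σ n := by ring
    rw [e]
    linarith
  -- lower bound for the mode
  have hXlow : (∀ b ∈ Icc (σ n) t, 9998 / 10000 ≤ x n b) := by
    rcases Nat.eq_zero_or_eq_succ_pred n with hn | hn
    · -- the first stage
      subst hn
      have hσ := h.σ0
      have hℓ0 := q.ℓ_nonneg 0
      have hℓl := q.ℓ_lam 0
      have hℓt : ∀ a b : ℝ, 0 ≤ b → b * L 0 ≤ a * lam → ℓ 0 * b ≤ 9001 / 10000 * a := by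
        intro a b hb0 hb
        have h1 : (ℓ 0 * lam) * b ≤ 9001 / 10000 * L 0 * b := by gcongr
        have h2 : (ℓ 0 * b) * lam ≤ (9001 / 10000 * a) * lam := by
          calc (ℓ 0 * b) * lam = (ℓ 0 * lam) * b := by ring
            _ ≤ 9001 / 10000 * L 0 * b := h1
            _ = 9001 / 10000 * (b * L 0) := by ring
            _ ≤ 9001 / 10000 * (a * lam) := by gcongr
            _ = _ := by ring
        exact le_of_mul_le_mul_right h2 hlm
      have htL : ∀ b ∈ Icc (σ 0) t, b * L 0 ≤ 62 / 100 * lam := by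
        intro b hb
        have h1 := hc.le
        rw [hσ, zero_add] at h1
        have h2 : b ≤ 62 / 100 * lam / L 0 := hb.2.trans (ht.2.le.trans h1)
        rwa [le_div_iff₀ hL] at h2
      have hE : ∀ b ∈ Icc (σ 0) t, Real.exp (ℓ 0 * b) ≤ 23 / 10 := by
        intro b hb
        have hb0 : 0 ≤ b := by rw [← hσ]; exact hb.1
        have h1 := hℓt _ b hb0 (htL b hb)
        have h2 : 1 - 56 / 100 ≤ Real.exp (-(ℓ 0 * b)) := by
          have := Real.add_one_le_exp (-(ℓ 0 * b))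
          linarith
        rw [Real.exp_neg] at h2
        have h3 := Real.exp_pos (ℓ 0 * b)
        have h4 : Real.exp (ℓ 0 * b) * (44 / 100) ≤ 1 := by
          calc Real.exp (ℓ 0 * b) * (44 / 100)
              ≤ Real.exp (ℓ 0 * b) * (Real.exp (ℓ 0 * b))⁻¹ := by
                gcongr; linarith
            _ = 1 := mul_inv_cancel₀ h3.ne'
        linarith
      have hX : ∀ b ∈ Icc (σ 0) t, 14999 / 10000 ≤ Real.exp (ℓ 0 * b) * x 0 b := by
        intro b hb
        have hmono := mono_of (f := fun τ => Real.exp (ℓ 0 * τ) * x 0 τ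
            + 30 / 10 ^ 6 * zz C x 0 τ)
          (f' := fun τ => (Real.exp (ℓ 0 * τ) * ℓ 0 * x 0 τ + Real.exp (ℓ 0 * τ) *
            (vfk κ L C ℓ B (fun k => x k τ) 0 + f 0 τ)) + 30 / 10 ^ 6 * z' τ) hb.1
          (by
            refine ContinuousOn.add (ContinuousOn.mul (by fun_prop) ?_) ?_
            · exact (g.cont 0).mono ((Icc_subset_Icc_right hb.2).trans hsub)
            · exact continuousOn_const.mul (hzc.mono (Icc_subset_Icc_right hb.2)))
          (fun τ hτ => by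
            have hτ1 : τ ∈ Ioo (σ 0) t := ⟨hτ.1, hτ.2.trans_le hb.2⟩
            have hτT : τ ∈ Ioo 0 T := ⟨h0.trans_lt hτ1.1, hτ1.2.trans htT⟩
            have h1 := g.derivAt 0 hτT
            have h2 := (hzd τ hτ1).const_mul (30 / 10 ^ 6 : ℝ)
            have h3 : HasDerivAt (fun τ => Real.exp (ℓ 0 * τ)) (Real.exp (ℓ 0 * τ) * ℓ 0) τ := by
              have := ((hasDerivAt_id τ).const_mul (ℓ 0)).exp
              simpa using this
            exact (h3.mul h1).add h2)
          (fun τ hτ => by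
            have hτ1 : τ ∈ Ioo (σ 0) t := ⟨hτ.1, hτ.2.trans_le hb.2⟩
            have hτ2 : τ ∈ Ico (σ 0) t := ⟨hτ1.1.le, hτ1.2⟩
            have p := hpw τ hτ2
            have h1 := Xlo g p
            simp only [Finset.range_zero, Finset.sum_empty, mul_zero, add_zero] at h1
            have h2 := h88 τ hτ1
            have h3 := mul_pos hL p.z0
            have h4 := hE τ ⟨hτ1.1.le, hτ1.2.le⟩
            have h5 := Real.exp_pos (ℓ 0 * τ)
            have h6 : Real.exp (ℓ 0 * τ) * (-(ℓ 0 * x 0 τ) - 11 / 10 ^ 7 * (L 0 * zz C x 0 τ))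
                ≤ Real.exp (ℓ 0 * τ) * (vfk κ L C ℓ B (fun k => x k τ) 0 + f 0 τ) :=
              mul_le_mul_of_nonneg_left h1 h5.le
            have h7 : Real.exp (ℓ 0 * τ) * (11 / 10 ^ 7 * (L 0 * zz C x 0 τ))
                ≤ 23 / 10 * (11 / 10 ^ 7 * (L 0 * zz C x 0 τ)) := by gcongr
            nlinarith)
        have h1 := hzhi b hb
        have h2 : x 0 (σ 0) = 3 / 2 := by rw [hσ]; exact g.sy.x0
        have hmono' : Real.exp (ℓ 0 * σ 0) * x 0 (σ 0) + 30 / 10 ^ 6 * zz C x 0 (σ 0)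
            ≤ Real.exp (ℓ 0 * b) * x 0 b + 30 / 10 ^ 6 * zz C x 0 b := hmono
        rw [h2, hσ, mul_zero, Real.exp_zero, one_mul] at hmono'
        rw [hσ] at hz0
        linarith
      have hX' : ∀ b ∈ Icc (σ 0) t, b * L 0 ≤ 1 / 5 * lam → 122 / 100 ≤ x 0 b := by
        intro b hb hbL
        have hb0 : 0 ≤ b := by rw [← hσ]; exact hb.1
        have h1 := hX b hb
        have h2 := hℓt _ b hb0 hbL
        have h3 : 81 / 100 ≤ Real.exp (-(ℓ 0 * b)) := by
          have := Real.add_one_le_exp (-(ℓ 0 * b))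
          linarith
        have h3' : 8199 / 10000 ≤ Real.exp (-(ℓ 0 * b)) := by
          have := Real.add_one_le_exp (-(ℓ 0 * b))
          linarith
        have h4 : x 0 b = Real.exp (-(ℓ 0 * b)) * (Real.exp (ℓ 0 * b) * x 0 b) := by
          rw [← mul_assoc, ← Real.exp_add, neg_add_cancel, Real.exp_zero, one_mul]
        rw [h4]
        calc (122 / 100 : ℝ) ≤ 8199 / 10000 * (14999 / 10000) := by norm_num
          _ ≤ _ := by gcongr
      have htL5 : t * L 0 ≤ 1 / 5 * lam := by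
        by_contra hcon
        push Not at hcon
        set s := 1 / 5 * lam / L 0 with hs
        have hsL : s * L 0 = 1 / 5 * lam := by rw [hs]; field_simp
        have hs0 : 0 < s := by positivity
        have hst : s ≤ t := by
          rw [hs, div_le_iff₀ hL]; exact hcon.le
        have h1 := hdur (318 / 1000) s ⟨by rw [hσ]; exact hs0.le, hst⟩ (fun τ hτ => by
          have hτ2 : τ ∈ Ico (σ 0) t := ⟨hτ.1.le, hτ.2.trans_le hst⟩
          have p := hpw τ hτ2
          refine le_trans ?_ (Zder g p (X0 := 122 / 100) (by norm_num)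
            (hX' τ ⟨hτ2.1, hτ2.2.le⟩ ?_))
          · have := mul_pos hL p.z0
            gcongr
            norm_num
          · rw [← hsL]
            have := hτ.2.le
            gcongr)
        rw [hσ, sub_zero, hsL] at h1
        linarith
      intro b hb
      have := hX' b hb (by
        refine le_trans ?_ htL5
        have := hb.2
        gcongr)
      linarith
    · -- the other stages
      obtain ⟨m, rfl⟩ : ∃ m, n = m + 1 := ⟨n.pred, hn⟩
      intro b hb
      have hbt : b ≤ t1 := hb.2.trans ht.2.le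
      have hmono := mono_of (f := fun τ => x (m + 1) τ + 13 / 10 ^ 6 * zz C x (m + 1) τ)
        (f' := fun τ => (vfk κ L C ℓ B (fun k => x k τ) (m + 1) + f (m + 1) τ)
          + 13 / 10 ^ 6 * z' τ) hb.1
        (by
          refine ContinuousOn.add ?_ ?_
          · exact (g.cont (m + 1)).mono ((Icc_subset_Icc_right hb.2).trans hsub)
          · exact continuousOn_const.mul (hzc.mono (Icc_subset_Icc_right hb.2)))
        (fun τ hτ => by
          have hτ1 : τ ∈ Ioo (σ (m + 1)) t := ⟨hτ.1, hτ.2.trans_le hb.2⟩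
          have hτT : τ ∈ Ioo 0 T := ⟨h0.trans_lt hτ1.1, hτ1.2.trans htT⟩
          have h1 := g.derivAt (m + 1) hτT
          have h2 := (hzd τ hτ1).const_mul (13 / 10 ^ 6 : ℝ)
          exact h1.add h2)
        (fun τ hτ => by
          have hτ1 : τ ∈ Ioo (σ (m + 1)) t := ⟨hτ.1, hτ.2.trans_le hb.2⟩
          have hτ2 : τ ∈ Ico (σ (m + 1)) t := ⟨hτ1.1.le, hτ1.2⟩
          have p := hpw τ hτ2
          have hst := strain_ge g h hc ub ht.2.le hpw hτ2
          have h1 := Xlo g p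
          have h2 := h88 τ hτ1
          have h3 := mul_pos hL p.z0
          linarith)
      have h1 := hzhi b hb
      have h2 := h.init
      have hmono' : x (m + 1) (σ (m + 1)) + 13 / 10 ^ 6 * zz C x (m + 1) (σ (m + 1))
          ≤ x (m + 1) b + 13 / 10 ^ 6 * zz C x (m + 1) b := hmono
      linarith
  have h985 : ∀ τ ∈ Ioo (σ n) t, 985 / 10000 * (L n * zz C x n τ) ≤ z' τ := fun τ hτ => by
    have p := hpw τ ⟨hτ.1.le, hτ.2⟩
    refine le_trans ?_ (Zder g p (X0 := 9998 / 10000) (by norm_num)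
      (hXlow τ ⟨hτ.1.le, hτ.2.le⟩))
    have := mul_pos hL p.z0
    gcongr
    norm_num
  refine ⟨fun τ hτ => ⟨z' τ, hzd τ hτ, h985 τ hτ⟩, hz78 t ⟨ht.1.le, le_rfl⟩,
    hXlow t ⟨ht.1.le, le_rfl⟩, ?_⟩
  -- the duration
  have h1 := hdur (985 / 10000) t ⟨ht.1.le, le_rfl⟩ h985
  linarith

end Pool.Agent.Y961.SK
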